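import Pool.Agent.H84.SelaA

/-! A Q-set of size `𝔡` yields a selectively (a) almost disjoint family of size `𝔡`. -/

namespace Pool.Agent.Results.MP_556855_lc.QSetD

open Cardinal Pool.Agent.H84.Sela

theorem result (h : ∃ X : Set ℝ, QSet X ∧ #X = domNum) :
    ∃ 𝓐 : Set (Set ℕ), AD 𝓐 ∧ #𝓐 = domNum ∧ SelA (Psi 𝓐) :=
  let ⟨_, hX, hd⟩ := h
  (main hX).imp fun _ h => ⟨h.1, h.2.1.trans hd, h.2.2.selA⟩

end Pool.Agent.Results.MP_556855_lc.QSetD
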